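import Pool.Agent.R679.FSub

namespace Pool.Agent.Results.MP_51bcab_lc.NotMinimalFactorGenerator

open Pool.Agent.R679.FSub FreeMonoid

/-- letters: `false` is `a`, `true` is `b`. State = number of trailing `b`'s, `4` is dead. -/
def step (s : Fin 5) (c : Bool) : Fin 5 :=
  if s = 4 then 4 else if c then s + 1 else 0

def run : Fin 5 → List Bool → Fin 5
  | s, [] => s
  | s, c :: w => run (step s c) w

lemma run_nil (s : Fin 5) : run s [] = s := rfl
lemma run_cons (s : Fin 5) (c : Bool) (w : List Bool) : run s (c :: w) = run (step s c) w := rfl
lemma run_append (s : Fin 5) (u v : List Bool) : run s (u ++ v) = run (run s u) v := by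
  induction u generalizing s with
  | nil => rfl
  | cons c u ih => exact ih _

lemma step_mono : ∀ s t : Fin 5, s ≤ t → ∀ c, step s c ≤ step t c := by decide
lemma step_four : ∀ c, step 4 c = 4 := by decide

lemma run_four (w : List Bool) : run 4 w = 4 := by
  induction w with
  | nil => rfl
  | cons c w ih => rw [run_cons, step_four, ih]

lemma run_mono (w : List Bool) : ∀ s t : Fin 5, s ≤ t → run s w ≤ run t w := by
  induction w with
  | nil => intro s t h; exact h
  | cons c w ih => intro s t h; rw [run_cons, run_cons]; exact ih _ _ (step_mono s t h c)

/-- if a word is readable from state 0, so are its factors -/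
lemma run_factor {w u : List Bool} (hw : run 0 w ≠ 4) (h : u <:+: w) : run 0 u ≠ 4 := by
  obtain ⟨x, y, rfl⟩ := h
  rw [run_append, run_append] at hw
  intro h
  apply hw
  have h1 : run (run 0 x) u = 4 := by
    have := run_mono u 0 (run 0 x) (Fin.zero_le _)
    rw [h] at this
    exact le_antisymm (Fin.le_last _) this
  rw [h1, run_four]

/-- `X = {a, ba, bba, ab, bab, bbab}`, `Y = {a, ab, bba, bbab}` -/
def X : Set (FreeMonoid Bool) :=
  {ofList [false], ofList [true, false], ofList [true, true, false],
   ofList [false, true], ofList [true, false, true], ofList [true, true, false, true]}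

def Y : Set (FreeMonoid Bool) :=
  {ofList [false], ofList [false, true], ofList [true, true, false],
   ofList [true, true, false, true]}

lemma Y_sub_X : Y ⊂ X := by
  refine ⟨?_, ?_⟩
  · intro x hx
    rcases hx with rfl | rfl | rfl | rfl <;> simp [X]
  · intro h
    have h1 : (ofList [true, false] : FreeMonoid Bool) ∈ Y := h (by simp [X])
    rcases h1 with h1 | h1 | h1 | h1 <;>
    · have := congrArg toList h1
      revert this
      decide

/-- The submonoid generated by `X` is the stabilizer of `{0, 1}`. -/
lemma mem_of_closure {w : FreeMonoid Bool} (hw : w ∈ Submonoid.closure X) :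
    ∀ s : Fin 5, s ≤ 1 → run s (toList w) ≤ 1 := by
  induction hw using Submonoid.closure_induction with
  | one => intro s hs; exact hs
  | mem x hx =>
    rcases hx with rfl | rfl | rfl | rfl | rfl | rfl <;> decide
  | mul x y _ _ ihx ihy =>
    intro s hs
    rw [toList_mul, run_append]
    exact ihy _ (ihx s hs)

lemma mulmem {S : Set (FreeMonoid Bool)} (l m : List Bool)
    (h1 : (ofList l : FreeMonoid Bool) ∈ S) (h2 : ofList m ∈ Submonoid.closure S) :
    ofList (l ++ m) ∈ Submonoid.closure S := by
  have : (ofList (l ++ m) : FreeMonoid Bool) = ofList l * ofList m := rfl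
  rw [this]
  exact mul_mem (Submonoid.subset_closure h1) h2

lemma closure_of_run (n : ℕ) : ∀ w : List Bool, w.length ≤ n → run 1 w ≤ 1 →
    ofList w ∈ Submonoid.closure X := by
  induction n with
  | zero =>
    intro w hw _
    have : w = [] := List.eq_nil_of_length_eq_zero (by omega)
    subst this
    exact one_mem _
  | succ n ih =>
    -- after reading `b^s a`, we are in state 0 and have to split off at most one `b`
    have aux : ∀ (p : List Bool), (ofList p : FreeMonoid Bool) ∈ X →
        (ofList (p ++ [true]) : FreeMonoid Bool) ∈ X → ∀ v : List Bool, v.length ≤ n →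
        run 0 v ≤ 1 → ofList (p ++ v) ∈ Submonoid.closure X := by
      intro p hp hpt v hv hrun
      match v, hv, hrun with
      | [], _, _ => simpa using Submonoid.subset_closure hp
      | false :: v', hv, hrun =>
        apply mulmem p (false :: v') hp
        apply ih _ hv
        exact hrun
      | true :: v', hv, hrun =>
        have e : p ++ true :: v' = (p ++ [true]) ++ v' := by simp
        rw [e]
        apply mulmem _ v' hpt
        apply ih
        · simp only [List.length_cons] at hv; omega
        · exact hrun
    intro w hw hrun
    match w, hw, hrun with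
    | [], _, _ => exact one_mem _
    | false :: v, hw, hrun =>
      exact aux [false] (by simp [X]) (by simp [X]) v (by simpa using hw) hrun
    | [true], _, hrun => exact absurd hrun (by decide)
    | true :: false :: v, hw, hrun =>
      exact aux [true, false] (by simp [X]) (by simp [X]) v
        (by simp only [List.length_cons] at hw; omega) hrun
    | [true, true], _, hrun => exact absurd hrun (by decide)
    | true :: true :: false :: v, hw, hrun =>
      exact aux [true, true, false] (by simp [X]) (by simp [X]) v
        (by simp only [List.length_cons] at hw; omega) hrun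
    | true :: true :: true :: v, _, hrun =>
      exfalso
      have : run 1 (true :: true :: true :: v) = run 4 v := rfl
      rw [this, run_four] at hrun
      exact absurd hrun (by decide)

lemma mem_closure_X (w : FreeMonoid Bool) :
    w ∈ Submonoid.closure X ↔ run 1 (toList w) ≤ 1 :=
  ⟨fun h => mem_of_closure h 1 le_rfl, fun h => closure_of_run _ (toList w) le_rfl h⟩

/-- number of letters `a` -/
lemma count_pos {w : FreeMonoid Bool} (hw : w ∈ Submonoid.closure X) (h1 : w ≠ 1) :
    1 ≤ (toList w).count false := by
  induction hw using Submonoid.closure_induction with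
  | one => exact absurd rfl h1
  | mem x hx =>
    rcases hx with rfl | rfl | rfl | rfl | rfl | rfl <;> decide
  | mul x y _ _ ihx ihy =>
    rw [toList_mul, List.count_append]
    by_cases hx : x = 1
    · by_cases hy : y = 1
      · exact absurd (by rw [hx, hy, one_mul]) h1
      · have := ihy hy; omega
    · have := ihx hx; omega

lemma minGen_closure_X : minGen (Submonoid.closure X) = X := by
  ext x
  constructor
  · rintro ⟨hx, hx1, hirr⟩
    induction hx using Submonoid.closure_induction_left with
    | one => exact absurd rfl hx1
    | mul_left g hg y hy _ =>
      have hg1 : g ≠ 1 := by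
        rintro rfl
        rcases hg with h | h | h | h | h | h <;>
        · have := congrArg toList h
          revert this
          decide
      by_cases hy1 : y = 1
      · rw [hy1, mul_one]; exact hg
      · exact absurd ⟨g, Submonoid.subset_closure hg, y, hy, hg1, hy1, rfl⟩ hirr
  · intro hx
    refine ⟨Submonoid.subset_closure hx, ?_, ?_⟩
    · rintro rfl
      rcases hx with h | h | h | h | h | h <;>
      · have := congrArg toList h
        revert this
        decide
    · rintro ⟨y, hy, z, hz, hy1, hz1, h⟩
      have h2 := congrArg (fun w => (toList w).count false) h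
      simp only [toList_mul, List.count_append] at h2
      have h3 := count_pos hy hy1
      have h4 := count_pos hz hz1
      have h5 : (toList x).count false = 1 := by
        rcases hx with rfl | rfl | rfl | rfl | rfl | rfl <;> decide
      omega

lemma fac_sub {w : List Bool} (hw : w ∈ Fac (Submonoid.closure X : Set (FreeMonoid Bool))) :
    run 0 w ≠ 4 := by
  obtain ⟨x, hx, hwx⟩ := hw
  apply run_factor _ hwx
  have := mem_of_closure hx 0 (by decide)
  intro h
  rw [h] at this
  exact absurd this (by decide)

/-- every word without `bbbb`, framed by two `a`'s, is in `Y*` -/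
lemma framed (n : ℕ) : ∀ w : List Bool, w.length ≤ n → run 0 w ≠ 4 →
    (ofList ([false] ++ w ++ [false]) : FreeMonoid Bool) ∈ Submonoid.closure Y ∧
    (ofList ([true, true, false] ++ w ++ [false]) : FreeMonoid Bool) ∈ Submonoid.closure Y := by
  induction n with
  | zero =>
    intro w hw _
    have : w = [] := List.eq_nil_of_length_eq_zero (by omega)
    subst this
    exact ⟨mulmem [false] [false] (by simp [Y]) (Submonoid.subset_closure (by simp [Y])),
      mulmem [true, true, false] [false] (by simp [Y]) (Submonoid.subset_closure (by simp [Y]))⟩
  | succ n ih =>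
    have one : ∀ p : List Bool, (ofList p : FreeMonoid Bool) ∈ Y →
        (ofList (p ++ [true]) : FreeMonoid Bool) ∈ Y → ∀ w : List Bool, w.length ≤ n + 1 →
        run 0 w ≠ 4 → (ofList (p ++ w ++ [false]) : FreeMonoid Bool) ∈ Submonoid.closure Y := by
      intro p hp hpt w hw hrun
      have ya : (ofList [false] : FreeMonoid Bool) ∈ Y := by simp [Y]
      have ybba : (ofList [true, true, false] : FreeMonoid Bool) ∈ Y := by simp [Y]
      match w, hw, hrun with
      | [], _, _ =>
        simpa using mulmem p [false] hp (Submonoid.subset_closure ya)
      | false :: v, hw, hrun =>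
        have := (ih v (by simpa using hw) hrun).1
        have h2 := mulmem p _ hp this
        simpa using h2
      | [true], _, _ =>
        have h2 := mulmem (p ++ [true]) [false] hpt (Submonoid.subset_closure ya)
        simpa using h2
      | true :: false :: v, hw, hrun =>
        have := (ih v (by simp only [List.length_cons] at hw; omega) hrun).1
        have h2 := mulmem (p ++ [true]) _ hpt this
        simpa using h2
      | [true, true], _, _ =>
        have h2 := mulmem p [true, true, false] hp (Submonoid.subset_closure ybba)
        simpa using h2
      | true :: true :: false :: v, hw, hrun =>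
        have := (ih v (by simp only [List.length_cons] at hw; omega) hrun).2
        have h2 := mulmem p _ hp this
        simpa using h2
      | [true, true, true], _, _ =>
        have h2 := mulmem (p ++ [true]) [true, true, false] hpt (Submonoid.subset_closure ybba)
        simpa using h2
      | true :: true :: true :: false :: v, hw, hrun =>
        have := (ih v (by simp only [List.length_cons] at hw; omega) hrun).2
        have h2 := mulmem (p ++ [true]) _ hpt this
        simpa using h2
      | true :: true :: true :: true :: v, _, hrun =>
        exfalso
        apply hrun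
        have : run 0 (true :: true :: true :: true :: v) = run 4 v := rfl
        rw [this, run_four]
    intro w hw hrun
    exact ⟨one [false] (by simp [Y]) (by simp [Y]) w hw hrun,
      one [true, true, false] (by simp [Y]) (by simp [Y]) w hw hrun⟩

lemma fac_eq : Fac (Submonoid.closure Y : Set (FreeMonoid Bool)) =
    Fac (Submonoid.closure X : Set (FreeMonoid Bool)) := by
  apply Set.Subset.antisymm
  · rintro w ⟨x, hx, hwx⟩
    exact ⟨x, Submonoid.closure_mono Y_sub_X.1 hx, hwx⟩
  · intro w hw
    refine ⟨_, (framed w.length w le_rfl (fac_sub hw)).1, ?_⟩
    exact ⟨[false], [false], rfl⟩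

lemma maximal : IsMaxIn (Fac (Submonoid.closure X : Set (FreeMonoid Bool)))
    (Submonoid.closure X) := by
  refine ⟨fun w hw => ⟨w, hw, List.infix_refl _⟩, ?_⟩
  intro N hXN hN
  apply le_antisymm _ hXN
  intro u hu
  rw [mem_closure_X]
  have hab : (ofList [false, true] : FreeMonoid Bool) ∈ N :=
    hXN (Submonoid.subset_closure (by simp [X]))
  have hbba : (ofList [true, true, false] : FreeMonoid Bool) ∈ N :=
    hXN (Submonoid.subset_closure (by simp [X]))
  have h1 := fac_sub (hN _ (mul_mem (mul_mem hab hu) hbba))
  rw [toList_mul, toList_mul, run_append, run_append] at h1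
  have e1 : run 0 (toList (ofList [false, true] : FreeMonoid Bool)) = 1 := by decide
  rw [e1] at h1
  revert h1
  generalize run 1 (toList u) = s
  revert s
  decide

/-- The negated form of Q1, with `X` finite. -/
theorem result : ∃ X Y : Set (FreeMonoid Bool), X.Finite ∧ Y ⊂ X ∧
    minGen (Submonoid.closure X) = X ∧
    IsMaxIn (Fac (Submonoid.closure X : Set (FreeMonoid Bool))) (Submonoid.closure X) ∧
    Fac (Submonoid.closure Y : Set (FreeMonoid Bool)) =
      Fac (Submonoid.closure X : Set (FreeMonoid Bool)) := by
  refine ⟨X, Y, ?_, Y_sub_X, minGen_closure_X, maximal, fac_eq⟩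
  unfold X
  exact Set.toFinite _

end Pool.Agent.Results.MP_51bcab_lc.NotMinimalFactorGenerator
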